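import Pool.Agent.Y216.BE.Ex

/-!
MP_72464c_an, Q1: a basic sequence in the space `ℓ¹`, over the real or the complex numbers, which
is not a subsequence of any basis of `ℓ¹`.

The sequence consists of finite blocks. The block `m`, with `n = 2 ^ m`, lives in the sum of `ℓ¹` of
dimension `n` and `L¹` of the cube `{1, -1} ^ n`; it consists of the unit vectors `e i`, `i < n`, of
the first space and then the vectors `n ^ (-1/2) e i - r i`, where the `r i` are the Rademacher
functions. If a basis extends the sequence, one of its partial sum operators maps `r i` to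
`n ^ (-1/2) e i` for all `i`, and the trace shows that its norm is at least `n ^ (1/2)`.
-/

set_option autoImplicit false

namespace Pool.Agent.Results.MP_72464c_an.NotExtendable

open Pool.Agent.Y216.BE

/-- The answer to the basis extension problem is negative: the space `ℓ¹` has a basis, and a basic
sequence `y` which does not appear, in its given order, as a subsequence of a basis of `ℓ¹`. -/
theorem result (𝕜 : Type) [RCLike 𝕜] :
    (∃ u : ℕ → lp (fun _ : ℕ => 𝕜) 1, IsBasis 𝕜 u) ∧
    ∃ y : ℕ → lp (fun _ : ℕ => 𝕜) 1, IsBasic 𝕜 y ∧
      ¬ ∃ u : ℕ → lp (fun _ : ℕ => 𝕜) 1, IsBasis 𝕜 u ∧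
        ∃ p : ℕ → ℕ, StrictMono p ∧ ∀ n, u (p n) = y n :=
  main

end Pool.Agent.Results.MP_72464c_an.NotExtendable
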